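import Pool.Agent.Helper76.TC.Goals

/-!
# Project TC, packet CT2 (lattice points)
-/

set_option autoImplicit false

open Set Filter Topology

namespace Pool.Agent.Helper81.TC.CT2

/-- A set of integer vectors such that a multiple of every vector is in the generated group contains `n`
vectors with nonzero determinant. -/
theorem exists_det {n : ℕ} (B : Set (Fin n → ℤ))
    (h : ∀ k : Fin n → ℤ, ∃ i : ℕ, 1 ≤ i ∧ i • k ∈ AddSubgroup.closure B) :
    ∃ w : Fin n → (Fin n → ℤ), (∀ i, w i ∈ B) ∧ (Matrix.of w).det ≠ 0 := by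
  classical
  set c : (Fin n → ℤ) →+ (Fin n → ℝ) :=
    { toFun := fun k i => (k i : ℝ)
      map_zero' := by ext; simp
      map_add' := by intro a b; ext; simp } with hc
  set s : Set (Fin n → ℝ) := c '' B with hs
  have hspan : Submodule.span ℝ s = ⊤ := by
    rw [eq_top_iff, ← (Pi.basisFun ℝ (Fin n)).span_eq, Submodule.span_le]
    rintro _ ⟨i, rfl⟩
    obtain ⟨a, ha, h1⟩ := h (Pi.single i 1)
    have h2 : c (a • Pi.single i 1) ∈ Submodule.span ℝ s := by
      have h3 : AddSubgroup.closure B ≤ (Submodule.span ℝ s).toAddSubgroup.comap c := by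
        rw [AddSubgroup.closure_le]
        intro b hb
        exact Submodule.subset_span ⟨b, hb, rfl⟩
      exact h3 h1
    have ha' : (a : ℝ) ≠ 0 := by
      have : (0 : ℝ) < a := by exact_mod_cast (Nat.lt_of_lt_of_le Nat.zero_lt_one ha)
      exact this.ne'
    have h4 : (Pi.basisFun ℝ (Fin n)) i = (1 / (a : ℝ)) • c (a • Pi.single i 1) := by
      rw [map_nsmul]
      ext j
      simp only [hc, Pi.basisFun_apply, AddMonoidHom.coe_mk, ZeroHom.coe_mk, Pi.smul_apply,
        smul_eq_mul, nsmul_eq_mul, Pi.mul_apply, Pi.natCast_apply]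
      by_cases hij : j = i
      · subst hij
        simp [ha']
      · simp [hij]
    rw [h4]
    exact Submodule.smul_mem _ _ h2
  obtain ⟨b, hb1, hb2, hb3⟩ := exists_linearIndependent ℝ s
  rw [hspan] at hb2
  have hbas : Module.Basis b ℝ (Fin n → ℝ) :=
    Module.Basis.mk hb3 (by rw [Subtype.range_coe]; exact hb2.ge)
  have hfin : Finite b := Module.Finite.finite_basis hbas
  have : Fintype b := Fintype.ofFinite b
  have hcard : Fintype.card b = n := by
    have := Module.finrank_eq_card_basis hbas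
    rw [Module.finrank_fin_fun] at this
    exact this.symm
  let e : Fin n ≃ b := (finCongr hcard.symm).trans (Fintype.equivFin b).symm
  have hex : ∀ i : Fin n, ∃ k ∈ B, c k = (e i : Fin n → ℝ) := fun i => hb1 (e i).2
  choose w hw1 hw2 using hex
  refine ⟨w, hw1, ?_⟩
  have hli : LinearIndependent ℝ (fun i : Fin n => c (w i)) := by
    have h1 : (fun i : Fin n => c (w i)) = ((↑) : b → (Fin n → ℝ)) ∘ e := by
      funext i
      exact hw2 i
    rw [h1]
    exact hb3.comp _ e.injective
  have h1 : IsUnit (Matrix.of (fun i : Fin n => c (w i))) := by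
    rw [← Matrix.linearIndependent_rows_iff_isUnit]
    exact hli
  have h2 : (Matrix.of (fun i : Fin n => c (w i))).det ≠ 0 := by
    have := (Matrix.isUnit_iff_isUnit_det _).1 h1
    exact this.ne_zero
  intro h3
  apply h2
  have h4 : Matrix.of (fun i : Fin n => c (w i)) = (Matrix.of w).map (Int.castRingHom ℝ) := by
    ext i j
    simp [hc]
  rw [h4, ← RingHom.mapMatrix_apply, ← RingHom.map_det, h3]
  simp

theorem t : Pool.Agent.Helper76.TC.S_CT2 := by
  classical
  intro n ν r m h0 hadd hneg hfin hr hcl hm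
  set B : Set (Fin n → ℤ) := {k | ν k ≤ r} with hB
  have hBf : B.Finite := hfin r
  obtain ⟨w0, hw0, hdet0⟩ := exists_det B hcl
  -- a maximal determinant
  have hWf : {w : Fin n → (Fin n → ℤ) | ∀ i, w i ∈ B}.Finite := by
    have := Set.Finite.pi (fun _ : Fin n => hBf)
    convert this using 1
    ext w
    simp
  obtain ⟨v, hv, hmax⟩ := Set.exists_max_image _ (fun w => |(Matrix.of w).det|) hWf ⟨w0, hw0⟩
  have hv' : ∀ i, v i ∈ B := hv
  have hdet : (Matrix.of v).det ≠ 0 := by
    intro h
    have h1 := hmax w0 hw0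
    simp only [h, abs_zero] at h1
    exact hdet0 (abs_eq_zero.1 (le_antisymm h1 (abs_nonneg _)))
  set A : Matrix (Fin n) (Fin n) ℤ := (Matrix.of v).transpose with hA
  have hAdet : A.det = (Matrix.of v).det := Matrix.det_transpose _
  have hcr : ∀ b ∈ B, ∀ i, |Matrix.cramer A b i| ≤ |A.det| := by
    intro b hb i
    rw [Matrix.cramer_apply, hAdet, hA]
    have h1 : ((Matrix.of v).transpose.updateCol i b) =
        (Matrix.of (Function.update v i b)).transpose := by
      ext j k
      simp only [Matrix.updateCol_apply, Matrix.transpose_apply, Matrix.of_apply,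
        Function.update_apply]
      split_ifs <;> rfl
    rw [h1, Matrix.det_transpose]
    apply hmax
    intro j
    by_cases hj : j = i
    · subst hj
      simpa using hb
    · simpa [Function.update_of_ne hj] using hv' j
  have hmul : ∀ x : Fin n → ℤ, A.mulVec x = ∑ i, x i • v i := by
    intro x
    ext j
    simp only [Matrix.mulVec, dotProduct, hA, Matrix.transpose_apply, Matrix.of_apply,
      Finset.sum_apply, Pi.smul_apply, smul_eq_mul]
    exact Finset.sum_congr rfl fun i _ => mul_comm _ _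
  have hAinj : ∀ x y : Fin n → ℤ, A.mulVec x = A.mulVec y → x = y := by
    intro x y hxy
    have h1 : A.mulVec (x - y) = 0 := by rw [Matrix.mulVec_sub, hxy, sub_self]
    have h2 := Matrix.eq_zero_of_mulVec_eq_zero (M := A) (by rw [hAdet]; exact hdet) h1
    exact sub_eq_zero.1 h2
  have hd : 0 < |A.det| := abs_pos.2 (by rw [hAdet]; exact hdet)
  -- the map
  set G : (Fin n → Fin m) → (Fin n → ℤ) :=
    fun k => ∑ i, (2 * ((k i : ℕ) : ℤ)) • v i with hG
  have hsep : ∀ k k' : Fin n → Fin m, ν (G k' - G k) ≤ r → k = k' := by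
    intro k k' hkk
    have hb : G k' - G k ∈ B := hkk
    have h1 : A.mulVec (Matrix.cramer A (G k' - G k)) =
        A.mulVec (fun i => A.det * (2 * ((k' i : ℕ) : ℤ) - 2 * ((k i : ℕ) : ℤ))) := by
      rw [Matrix.mulVec_cramer, hmul]
      have h2 : G k' - G k = ∑ i, (2 * ((k' i : ℕ) : ℤ) - 2 * ((k i : ℕ) : ℤ)) • v i := by
        simp only [hG, sub_smul, Finset.sum_sub_distrib]
      rw [h2, Finset.smul_sum]
      refine Finset.sum_congr rfl fun i _ => ?_
      rw [smul_smul]
    have h2 := hAinj _ _ h1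
    funext i
    have h3 := congrFun h2 i
    have h4 := hcr _ hb i
    rw [h3, abs_mul] at h4
    have h5 : |A.det| * |2 * ((k' i : ℕ) : ℤ) - 2 * ((k i : ℕ) : ℤ)| ≤ |A.det| * 1 := by
      rw [mul_one]
      exact h4
    have h7 := le_of_mul_le_mul_left h5 hd
    rw [abs_le] at h7
    apply Fin.ext
    omega
  have hGinj : Function.Injective G := by
    intro k k' h
    apply hsep k k'
    rw [h, sub_self, h0]
    exact hr
  have hνsmul : ∀ (j : ℕ) (x : Fin n → ℤ), x ∈ B → ν ((j : ℤ) • x) ≤ j * r := by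
    intro j x hx
    induction j with
    | zero => simp [h0]
    | succ j ih =>
      have h1 : (((j + 1 : ℕ) : ℤ) • x) = (j : ℤ) • x + x := by
        push_cast
        rw [add_smul, one_smul]
      rw [h1]
      have h2 := hadd ((j : ℤ) • x) x
      have h3 : ν x ≤ r := hx
      push_cast
      linarith
  refine ⟨Finset.univ.image G, ?_, ?_, ?_⟩
  · rw [Finset.card_image_of_injective _ hGinj, Finset.card_univ, Fintype.card_fun,
      Fintype.card_fin, Fintype.card_fin]
  · intro k hk
    obtain ⟨κ, -, rfl⟩ := Finset.mem_image.1 hk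
    have h2 : ν (∑ i, (2 * ((κ i : ℕ) : ℤ)) • v i) ≤ ∑ i, ν ((2 * ((κ i : ℕ) : ℤ)) • v i) :=
      Finset.le_sum_of_subadditive ν h0.le hadd Finset.univ _
    have h3 : ∑ i, ν ((2 * ((κ i : ℕ) : ℤ)) • v i) ≤ ∑ _i : Fin n, 2 * (m : ℝ) * r := by
      refine Finset.sum_le_sum fun i _ => ?_
      have h4 := hνsmul (2 * (κ i : ℕ)) (v i) (hv' i)
      have h5 : (((2 * (κ i : ℕ) : ℕ) : ℤ)) = 2 * ((κ i : ℕ) : ℤ) := by push_cast; ring
      rw [h5] at h4
      refine h4.trans ?_
      have h6 : ((κ i : ℕ) : ℝ) ≤ (m : ℝ) := by exact_mod_cast (κ i).2.le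
      push_cast
      have h9 : 2 * ((κ i : ℕ) : ℝ) ≤ 2 * (m : ℝ) := by linarith
      exact mul_le_mul_of_nonneg_right h9 hr
    rw [Finset.sum_const, Finset.card_univ, Fintype.card_fin, nsmul_eq_mul] at h3
    calc ν (G κ) ≤ n * (2 * (m : ℝ) * r) := h2.trans h3
      _ = 2 * n * m * r := by ring
  · intro k hk k' hk' hne
    obtain ⟨κ, -, rfl⟩ := Finset.mem_image.1 hk
    obtain ⟨κ', -, rfl⟩ := Finset.mem_image.1 hk'
    by_contra h
    exact hne (by rw [hsep κ κ' (not_lt.1 h)])

end Pool.Agent.Helper81.TC.CT2
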